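import Mathlib

/-!
# Representability of a `q`-matroid is not determined by its projectivization

For every finite field `F = GF(q)` there is a `q`-matroid of rank two on a four-dimensional space
whose projectivization matroid is representable over every extension field of degree at least four
although the `q`-matroid itself is not representable over any extension field of `F`.
-/

set_option linter.all false

namespace Pool.Agent.Results.MP_4d2e3d_co.NotDetermined

open Module LinearAlgebra.Projectivization

universe u v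

/-- A `q`-matroid on the vector space `E` over the (finite) field `F`. -/
structure QMatroid (F : Type u) (E : Type v) [Field F] [AddCommGroup E] [Module F E] where
  /-- the rank function -/
  rk : Submodule F E → ℕ
  rk_le : ∀ V, rk V ≤ finrank F V
  mono : ∀ U V, U ≤ V → rk U ≤ rk V
  submod : ∀ U V, rk (U ⊔ V) + rk (U ⊓ V) ≤ rk U + rk V

section defs

variable {F : Type u} {E : Type v} [Field F] [AddCommGroup E] [Module F E]

/-- The subspace spanned by a set of one-dimensional subspaces. -/
def spanPts (A : Set (ℙ F E)) : Submodule F E := ⨆ x ∈ A, x.submodule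

/-- The rank function of the projectivization matroid. -/
def QMatroid.projRank (M : QMatroid F E) (A : Set (ℙ F E)) : ℕ := M.rk (spanPts A)

/-- The projectivization matroid is `K`-representable: it is the matroid of a matrix over `K` whose
columns are indexed by the one-dimensional subspaces of `E`. -/
def QMatroid.ProjRepresentable (M : QMatroid F E) (K : Type u) [Field K] : Prop :=
  ∃ (k : ℕ) (G : Matrix (Fin k) (ℙ F E) K), ∀ A : Set (ℙ F E),
    M.projRank A = finrank K (Submodule.span K (G.col '' A))

/-- The `q`-matroid is `K`-representable (`K` an extension field of `F`): after an `F`-linear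
identification `e` of `E` with `F^n` its rank function is the rank function of a matrix `G` over
`K`, namely `rk V` is the dimension of the `K`-span of the vectors `G y` with `y ∈ V`. -/
def QMatroid.Representable (M : QMatroid F E) (K : Type u) [Field K] [Algebra F K] : Prop :=
  ∃ (k n : ℕ) (G : Matrix (Fin k) (Fin n) K) (e : E ≃ₗ[F] (Fin n → F)),
    ∀ V : Submodule F E, M.rk V =
      finrank K (Submodule.span K ((fun y : E => G.mulVec (fun j => algebraMap F K (e y j))) ''
        (V : Set E)))

end defs

section example_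

variable (F : Type u) [Field F]

/-- The four-dimensional space. -/
abbrev Sp := (Fin 2 → F) × (Fin 2 → F)

/-- The linear map `(a, b) ↦ (b, a + b)`. -/
def T : (Fin 2 → F) →ₗ[F] (Fin 2 → F) where
  toFun x := ![x 1, x 0 + x 1]
  map_add' x y := by
    funext i
    fin_cases i
    · simp
    · simp; ring
  map_smul' c x := by
    funext i
    fin_cases i
    · simp
    · simp; ring

/-- Four planes meeting pairwise in `0`. -/
def pl : Fin 4 → Submodule F (Sp F) :=
  ![LinearMap.ker (LinearMap.fst F (Fin 2 → F) (Fin 2 → F)),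
    LinearMap.ker (LinearMap.snd F (Fin 2 → F) (Fin 2 → F)),
    LinearMap.ker (LinearMap.snd F (Fin 2 → F) (Fin 2 → F) - LinearMap.fst F _ _),
    LinearMap.ker (LinearMap.snd F (Fin 2 → F) (Fin 2 → F) - (T F).comp (LinearMap.fst F _ _))]

variable {F}

theorem mem_pl0 (p : Sp F) : p ∈ pl F 0 ↔ p.1 = 0 := by simp [pl]
theorem mem_pl1 (p : Sp F) : p ∈ pl F 1 ↔ p.2 = 0 := by simp [pl]
theorem mem_pl2 (p : Sp F) : p ∈ pl F 2 ↔ p.2 = p.1 := by simp [pl, sub_eq_zero]
theorem mem_pl3 (p : Sp F) : p ∈ pl F 3 ↔ p.2 = T F p.1 := by simp [pl, sub_eq_zero]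

theorem T_apply (x : Fin 2 → F) : T F x = ![x 1, x 0 + x 1] := rfl

theorem T_eq_zero (x : Fin 2 → F) (h : T F x = 0) : x = 0 := by
  have h0 := congrFun h 0
  have h1 := congrFun h 1
  simp [T_apply] at h0 h1
  funext i
  fin_cases i
  · simpa [h0] using h1
  · exact h0

theorem T_eq_self (x : Fin 2 → F) (h : x = T F x) : x = 0 := by
  have h0 := congrFun h 0
  have h1 := congrFun h 1
  simp [T_apply] at h0 h1
  funext i
  fin_cases i
  · exact h1
  · show x 1 = 0
    rw [← h0, h1]

theorem disj (i j : Fin 4) (p : Sp F) (hi : p ∈ pl F i) (hj : p ∈ pl F j) (hp : p ≠ 0) :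
    i = j := by
  have key : ∀ q : Sp F, q.1 = 0 → q.2 = 0 → q = 0 := fun q h1 h2 => Prod.ext h1 h2
  by_contra hij
  apply hp
  fin_cases i <;> fin_cases j <;> first
    | exact absurd rfl hij
    | skip
  all_goals
    simp only [Fin.mk_zero, Fin.zero_eta, Fin.mk_one, Fin.reduceFinMk, mem_pl0, mem_pl1, mem_pl2,
      mem_pl3] at hi hj
  · exact key p hi hj
  · exact key p hi (hj.trans hi)
  · exact key p hi (by rw [hj, hi, map_zero])
  · exact key p hj hi
  · exact key p (hj.symm.trans hi) hi
  · exact key p (T_eq_zero _ (hj.symm.trans hi)) hi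
  · exact key p hj (hi.trans hj)
  · exact key p (hi.symm.trans hj) hj
  · have := T_eq_self _ (hi.symm.trans hj)
    exact key p this (hi.trans this)
  · exact key p hj (by rw [hi, hj, map_zero])
  · exact key p (T_eq_zero _ (hi.symm.trans hj)) hj
  · have := T_eq_self _ (hj.symm.trans hi)
    exact key p this (hj.trans this)

/-- Subspaces of rank at most one. -/
def Small (U : Submodule F (Sp F)) : Prop := finrank F U ≤ 1 ∨ ∃ i, U ≤ pl F i

theorem Small.mono {U V : Submodule F (Sp F)} (hUV : U ≤ V) (hV : Small V) : Small U := by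
  rcases hV with h | ⟨i, hi⟩
  · exact Or.inl ((Submodule.finrank_mono hUV).trans h)
  · exact Or.inr ⟨i, hUV.trans hi⟩

theorem Small.sup {U V : Submodule F (Sp F)} (hU : Small U) (hV : Small V) (h : U ⊓ V ≠ ⊥) :
    Small (U ⊔ V) := by
  obtain ⟨p, hp, hp0⟩ := Submodule.exists_mem_ne_zero_of_ne_bot h
  have key : ∀ (A B : Submodule F (Sp F)), p ∈ A → p ∈ B → finrank F A ≤ 1 → A ≤ B := by
    intro A B hA hB hd x hx
    have h1 : finrank F A = 1 := by
      apply le_antisymm hd
      apply Submodule.one_le_finrank_iff.2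
      intro h0
      rw [h0] at hA
      exact hp0 (by simpa using hA)
    obtain ⟨c, hc⟩ := (finrank_eq_one_iff_of_nonzero' (⟨p, hA⟩ : A)
      (by intro h; exact hp0 (congrArg Subtype.val h))).1 h1 ⟨x, hx⟩
    have hc' : c • p = x := congrArg Subtype.val hc
    rw [← hc']
    exact B.smul_mem c hB
  rcases hU with h1 | ⟨i, hi⟩
  · rw [sup_eq_right.2 (key U V hp.1 hp.2 h1)]
    exact hV
  · rcases hV with h2 | ⟨j, hj⟩
    · rw [sup_eq_left.2 (key V U hp.2 hp.1 h2)]
      exact Or.inr ⟨i, hi⟩
    · have hij := disj i j p (hi hp.1) (hj hp.2) hp0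
      subst hij
      exact Or.inr ⟨i, sup_le hi hj⟩

open Classical in
/-- The rank function. -/
noncomputable def rkFun (U : Submodule F (Sp F)) : ℕ :=
  if U = ⊥ then 0 else if Small U then 1 else 2

theorem rkFun_bot : rkFun (⊥ : Submodule F (Sp F)) = 0 := by simp [rkFun]

theorem rkFun_small {U : Submodule F (Sp F)} (h0 : U ≠ ⊥) (h : Small U) : rkFun U = 1 := by
  simp [rkFun, h0, h]

theorem small_bot : Small (⊥ : Submodule F (Sp F)) := by
  left; simp

theorem rkFun_not_small {U : Submodule F (Sp F)} (h : ¬ Small U) : rkFun U = 2 := by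
  have h0 : U ≠ ⊥ := by
    rintro rfl
    exact h small_bot
  simp [rkFun, h0, h]

theorem rkFun_le_two (U : Submodule F (Sp F)) : rkFun U ≤ 2 := by
  unfold rkFun
  split_ifs <;> omega

theorem rkFun_le_one {U : Submodule F (Sp F)} (h : Small U) : rkFun U ≤ 1 := by
  unfold rkFun
  split_ifs
  · omega
  · exact le_refl 1

theorem rkFun_mono (U V : Submodule F (Sp F)) (h : U ≤ V) : rkFun U ≤ rkFun V := by
  by_cases h0 : U = ⊥
  · rw [h0, rkFun_bot]
    exact Nat.zero_le _
  · have hV0 : V ≠ ⊥ := by
      rintro rfl
      exact h0 (le_bot_iff.1 h)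
    by_cases hs : Small V
    · rw [rkFun_small h0 (hs.mono h), rkFun_small hV0 hs]
    · rw [rkFun_not_small hs]
      exact rkFun_le_two U

/-- The `q`-matroid. -/
noncomputable def exM : QMatroid F (Sp F) where
  rk := rkFun
  rk_le := by
    intro V
    by_cases h0 : V = ⊥
    · rw [h0, rkFun_bot]
      exact Nat.zero_le _
    · by_cases hs : Small V
      · rw [rkFun_small h0 hs]
        exact Submodule.one_le_finrank_iff.2 h0
      · rw [rkFun_not_small hs]
        by_contra hlt
        exact hs (Or.inl (by omega))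
  mono := rkFun_mono
  submod := by
    intro U V
    by_cases hU : Small U
    · by_cases hV : Small V
      · by_cases hi : U ⊓ V = ⊥
        · rw [hi, rkFun_bot]
          by_cases hU0 : U = ⊥
          · rw [hU0]; simp
          · by_cases hV0 : V = ⊥
            · rw [hV0]; simp
            · rw [rkFun_small hU0 hU, rkFun_small hV0 hV]
              have := rkFun_le_two (U ⊔ V)
              omega
        · have hU0 : U ≠ ⊥ := by
            rintro rfl
            simp at hi
          have hV0 : V ≠ ⊥ := by
            rintro rfl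
            simp at hi
          rw [rkFun_small hU0 hU, rkFun_small hV0 hV]
          have h1 := rkFun_le_one (hU.sup hV hi)
          have h2 := rkFun_le_one (hU.mono (inf_le_left : U ⊓ V ≤ U))
          omega
      · rw [rkFun_not_small hV]
        have h1 := rkFun_le_two (U ⊔ V)
        have h2 := rkFun_mono _ _ (inf_le_left : U ⊓ V ≤ U)
        omega
    · rw [rkFun_not_small hU]
      have h1 := rkFun_le_two (U ⊔ V)
      have h2 := rkFun_mono _ _ (inf_le_right : U ⊓ V ≤ V)
      omega

/-! ### Representability of the projectivization -/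

section proj

open Classical in
/-- The class of a point. -/
noncomputable def cl (x : ℙ F (Sp F)) : Submodule F (Sp F) :=
  if h : ∃ i, x.submodule ≤ pl F i then pl F h.choose else x.submodule

theorem pt_ne_bot (x : ℙ F (Sp F)) : x.submodule ≠ ⊥ := by
  intro h
  have := x.finrank_submodule
  rw [h] at this
  simp at this

theorem cl_of_le (x : ℙ F (Sp F)) (i : Fin 4) (h : x.submodule ≤ pl F i) : cl x = pl F i := by
  have hex : ∃ i, x.submodule ≤ pl F i := ⟨i, h⟩
  unfold cl
  rw [dif_pos hex]
  obtain ⟨p, hp, hp0⟩ := Submodule.exists_mem_ne_zero_of_ne_bot (pt_ne_bot x)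
  rw [disj _ _ p (hex.choose_spec hp) (h hp) hp0]

theorem le_cl (x : ℙ F (Sp F)) : x.submodule ≤ cl x := by
  unfold cl
  split_ifs with h
  · exact h.choose_spec
  · exact le_refl _

theorem cl_small (x : ℙ F (Sp F)) : Small (cl x) := by
  unfold cl
  split_ifs with h
  · exact Or.inr ⟨_, le_refl _⟩
  · exact Or.inl (le_of_eq x.finrank_submodule)

/-- Choice of one point in each class. -/
theorem exists_choice (K : Type u) (ι : ℙ F (Sp F) → K) (hι : Function.Injective ι) :
    ∃ c : ℙ F (Sp F) → K, ∀ x y, c x = c y ↔ cl x = cl y := by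
  classical
  let pick : Set.range (cl (F := F)) → ℙ F (Sp F) := fun t => t.2.choose
  have hpick : ∀ t, cl (pick t) = t.1 := fun t => t.2.choose_spec
  refine ⟨fun x => ι (pick ⟨cl x, x, rfl⟩), fun x y => ⟨fun h => ?_, fun h => ?_⟩⟩
  · have h1 := hι h
    have h2 := congrArg cl h1
    rw [hpick, hpick] at h2
    exact h2
  · have : (⟨cl x, x, rfl⟩ : Set.range (cl (F := F))) = ⟨cl y, y, rfl⟩ := Subtype.ext h
    simp only [this]

theorem small_spanPts (A : Set (ℙ F (Sp F))) :
    Small (spanPts A) ↔ ∀ x ∈ A, ∀ y ∈ A, cl x = cl y := by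
  constructor
  · rintro (h | ⟨i, hi⟩) x hx y hy
    · have hx1 : x.submodule ≤ spanPts A := le_biSup (fun x : ℙ F (Sp F) => x.submodule) hx
      have hy1 : y.submodule ≤ spanPts A := le_biSup (fun x : ℙ F (Sp F) => x.submodule) hy
      have ex : x.submodule = spanPts A :=
        Submodule.eq_of_le_of_finrank_le hx1 (by rw [x.finrank_submodule]; exact h)
      have ey : y.submodule = spanPts A :=
        Submodule.eq_of_le_of_finrank_le hy1 (by rw [y.finrank_submodule]; exact h)
      have : x = y := Projectivization.submodule_injective (ex.trans ey.symm)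
      rw [this]
    · have hx1 : x.submodule ≤ spanPts A := le_biSup (fun x : ℙ F (Sp F) => x.submodule) hx
      have hy1 : y.submodule ≤ spanPts A := le_biSup (fun x : ℙ F (Sp F) => x.submodule) hy
      rw [cl_of_le x i (hx1.trans hi), cl_of_le y i (hy1.trans hi)]
  · intro h
    by_cases hA : A = ∅
    · subst hA
      have : spanPts (∅ : Set (ℙ F (Sp F))) = ⊥ := by simp [spanPts]
      rw [this]
      exact small_bot
    · obtain ⟨x, hx⟩ := Set.nonempty_iff_ne_empty.2 hA
      apply (cl_small x).mono
      apply iSup₂_le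
      intro y hy
      rw [h x hx y hy]
      exact le_cl y

theorem spanPts_eq_bot (A : Set (ℙ F (Sp F))) : spanPts A = ⊥ ↔ A = ∅ := by
  constructor
  · intro h
    by_contra hA
    obtain ⟨x, hx⟩ := Set.nonempty_iff_ne_empty.2 hA
    have hx1 : x.submodule ≤ spanPts A := le_biSup (fun x : ℙ F (Sp F) => x.submodule) hx
    rw [h] at hx1
    exact pt_ne_bot x (le_bot_iff.1 hx1)
  · rintro rfl
    simp [spanPts]

theorem projRep (K : Type u) [Field K] (ι : ℙ F (Sp F) → K) (hι : Function.Injective ι) :
    (exM (F := F)).ProjRepresentable K := by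
  obtain ⟨c, hc⟩ := exists_choice K ι hι
  refine ⟨2, Matrix.of (fun i x => (![1, c x] : Fin 2 → K) i), ?_⟩
  intro A
  have hcol : (Matrix.of (fun i x => (![1, c x] : Fin 2 → K) i)).col =
      fun x : ℙ F (Sp F) => (![1, c x] : Fin 2 → K) := rfl
  rw [hcol]
  show rkFun (spanPts A) = _
  by_cases hA : A = ∅
  · rw [(spanPts_eq_bot A).2 hA, rkFun_bot, hA, Set.image_empty, Submodule.span_empty,
      finrank_bot]
  · obtain ⟨x, hx⟩ := Set.nonempty_iff_ne_empty.2 hA
    have hne : ∀ x : ℙ F (Sp F), (![1, c x] : Fin 2 → K) ≠ 0 := by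
      intro x h
      have := congrFun h 0
      simp at this
    by_cases hs : Small (spanPts A)
    · rw [rkFun_small (fun h => hA ((spanPts_eq_bot A).1 h)) hs]
      have hall := (small_spanPts A).1 hs
      have himg : (fun x : ℙ F (Sp F) => (![1, c x] : Fin 2 → K)) '' A = {![1, c x]} := by
        ext v
        constructor
        · rintro ⟨y, hy, rfl⟩
          have := (hc y x).2 (hall y hy x hx)
          simp [this]
        · rintro rfl
          exact ⟨x, hx, rfl⟩
      rw [himg, finrank_span_singleton (hne x)]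
    · rw [rkFun_not_small hs]
      have hex : ∃ y ∈ A, ∃ z ∈ A, c y ≠ c z := by
        by_contra hcon
        push Not at hcon
        exact hs ((small_spanPts A).2 (fun y hy z hz => (hc y z).1 (hcon y hy z hz)))
      obtain ⟨y, hy, z, hz, hyz⟩ := hex
      have htop : Submodule.span K ((fun x : ℙ F (Sp F) => (![1, c x] : Fin 2 → K)) '' A) = ⊤ := by
        rw [eq_top_iff]
        intro v _
        have hv : v = ((v 1 - v 0 * c z) / (c y - c z)) • (![1, c y] : Fin 2 → K) +
            ((v 0 * c y - v 1) / (c y - c z)) • (![1, c z] : Fin 2 → K) := by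
          have hd : c y - c z ≠ 0 := sub_ne_zero.2 hyz
          funext i
          fin_cases i
          · simp
            field_simp
            ring
          · simp
            field_simp
            ring
        rw [hv]
        exact Submodule.add_mem _
          (Submodule.smul_mem _ _ (Submodule.subset_span ⟨y, hy, rfl⟩))
          (Submodule.smul_mem _ _ (Submodule.subset_span ⟨z, hz, rfl⟩))
      rw [htop, finrank_top]
      simp

end proj

/-! ### Non-representability of the `q`-matroid -/

section nonrep

/-- The plane `{(x, x + T x)}`. -/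
def plX (F : Type u) [Field F] : Submodule F (Sp F) :=
  LinearMap.ker (LinearMap.snd F (Fin 2 → F) (Fin 2 → F) -
    (LinearMap.id + T F).comp (LinearMap.fst F _ _))

theorem mem_plX (p : Sp F) : p ∈ plX F ↔ p.2 = p.1 + T F p.1 := by simp [plX, sub_eq_zero]

theorem plX_not_small : ¬ Small (plX F) := by
  have hp : ((![1, 0], ![1, 1]) : Sp F) ∈ plX F := by
    rw [mem_plX]
    funext i
    fin_cases i <;> simp [T_apply]
  have hq : ((![0, 1], ![1, 1 + 1]) : Sp F) ∈ plX F := by
    rw [mem_plX]
    funext i
    fin_cases i <;> simp [T_apply]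
  rintro (h | ⟨i, hi⟩)
  · have h1 : finrank F (plX F) = 1 := by
      apply le_antisymm h
      apply Submodule.one_le_finrank_iff.2
      intro h0
      rw [h0, Submodule.mem_bot] at hp
      have := congrFun (congrArg Prod.fst hp) 0
      simp at this
    obtain ⟨c, hc⟩ := (finrank_eq_one_iff_of_nonzero' (⟨_, hp⟩ : plX F)
      (by
        intro h0
        have := congrFun (congrArg Prod.fst (congrArg Subtype.val h0)) 0
        simp at this)).1 h1 ⟨_, hq⟩
    have h2 := congrFun (congrArg Prod.fst (congrArg Subtype.val hc)) 0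
    have h3 := congrFun (congrArg Prod.fst (congrArg Subtype.val hc)) 1
    simp at h3
  · have h4 := hi hp
    fin_cases i
    · have := congrFun ((mem_pl0 _).1 h4) 0
      simp at this
    · have := congrFun ((mem_pl1 _).1 h4) 0
      simp at this
    · have := congrFun ((mem_pl2 _).1 h4) 1
      simp at this
    · have := congrFun ((mem_pl3 _).1 h4) 0
      simp [T_apply] at this

theorem rk_pl (i : Fin 4) : rkFun (pl F i) = 1 := by
  apply rkFun_small _ (Or.inr ⟨i, le_refl _⟩)
  intro h
  have key : ∃ p : Sp F, p ∈ pl F i ∧ p ≠ 0 := by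
    fin_cases i
    · refine ⟨(0, ![1, 0]), (mem_pl0 _).2 rfl, fun h => ?_⟩
      have := congrFun (congrArg Prod.snd h) 0
      simp at this
    · refine ⟨(![1, 0], 0), (mem_pl1 _).2 rfl, fun h => ?_⟩
      have := congrFun (congrArg Prod.fst h) 0
      simp at this
    · refine ⟨(![1, 0], ![1, 0]), (mem_pl2 _).2 rfl, fun h => ?_⟩
      have := congrFun (congrArg Prod.fst h) 0
      simp at this
    · refine ⟨(![1, 0], T F ![1, 0]), (mem_pl3 _).2 rfl, fun h => ?_⟩
      have := congrFun (congrArg Prod.fst h) 0
      simp at this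
  obtain ⟨p, hp, hp0⟩ := key
  rw [h] at hp
  exact hp0 (by simpa using hp)

theorem notRep (K : Type u) [Field K] [Algebra F K] : ¬ (exM (F := F)).Representable K := by
  rintro ⟨k, n, G, e, h⟩
  let φ : Sp F → (Fin k → K) := fun y => G.mulVec (fun j => algebraMap F K (e y j))
  have hadd : ∀ x y, φ (x + y) = φ x + φ y := by
    intro x y
    show G.mulVec _ = G.mulVec _ + G.mulVec _
    rw [← Matrix.mulVec_add]
    congr 1
    funext j
    simp
  have hsmul : ∀ (c : F) y, φ (c • y) = algebraMap F K c • φ y := by
    intro c y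
    show G.mulVec _ = _ • G.mulVec _
    rw [← Matrix.mulVec_smul]
    congr 1
    funext j
    simp
  have h' : ∀ V : Submodule F (Sp F), rkFun V = finrank K (Submodule.span K (φ '' (V : Set _))) := h
  have zero : φ 0 = 0 := by
    have := hadd 0 0
    rw [add_zero] at this
    exact left_eq_add.1 this
  -- nonzero vectors are mapped to nonzero vectors
  have hne : ∀ p : Sp F, p ≠ 0 → φ p ≠ 0 := by
    intro p hp h0
    have h1 : rkFun (Submodule.span F {p}) = 1 := by
      apply rkFun_small
      · intro hb
        exact hp (by simpa using hb)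
      · exact Or.inl (le_of_eq (finrank_span_singleton hp))
    rw [h'] at h1
    have h2 : Submodule.span K (φ '' (Submodule.span F {p} : Set (Sp F))) = ⊥ := by
      rw [Submodule.span_eq_bot]
      rintro _ ⟨y, hy, rfl⟩
      obtain ⟨c, rfl⟩ := Submodule.mem_span_singleton.1 hy
      rw [hsmul, h0, smul_zero]
    rw [h2, finrank_bot] at h1
    exact absurd h1 (by norm_num)
  -- collinearity in a plane of rank one
  have hcol : ∀ (i : Fin 4) (p y : Sp F), p ∈ pl F i → y ∈ pl F i → p ≠ 0 →
      ∃ c : K, φ y = c • φ p := by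
    intro i p y hp hy hp0
    have h1 : finrank K (Submodule.span K (φ '' (pl F i : Set (Sp F)))) = 1 := by
      rw [← h', rk_pl]
    obtain ⟨c, hc⟩ := (finrank_eq_one_iff_of_nonzero'
      (⟨φ p, Submodule.subset_span ⟨p, hp, rfl⟩⟩ :
        Submodule.span K (φ '' (pl F i : Set (Sp F))))
      (fun h0 => hne p hp0 (congrArg Subtype.val h0))).1 h1
      ⟨φ y, Submodule.subset_span ⟨y, hy, rfl⟩⟩
    exact ⟨c, (congrArg Subtype.val hc).symm⟩
  have hx0 : (![1, 0] : Fin 2 → F) ≠ 0 := by
    intro h0
    have := congrFun h0 0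
    simp at this
  set x0 : Fin 2 → F := ![1, 0] with hx0def
  set u := φ (x0, 0) with hu
  set w := φ (0, x0) with hw
  have hu0 : u ≠ 0 := hne _ (fun h0 => hx0 (congrArg Prod.fst h0))
  have ha : ∀ x : Fin 2 → F, ∃ c : K, φ (x, 0) = c • u := fun x =>
    hcol 1 (x0, 0) (x, 0) ((mem_pl1 _).2 rfl) ((mem_pl1 _).2 rfl)
      (fun h0 => hx0 (congrArg Prod.fst h0))
  have hb : ∀ x : Fin 2 → F, ∃ c : K, φ (0, x) = c • w := fun x =>
    hcol 0 (0, x0) (0, x) ((mem_pl0 _).2 rfl) ((mem_pl0 _).2 rfl)
      (fun h0 => hx0 (congrArg Prod.snd h0))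
  choose a ha using ha
  choose b hb using hb
  have hsplit : ∀ x y : Fin 2 → F, φ (x, y) = a x • u + b y • w := by
    intro x y
    rw [← ha, ← hb, ← hadd]
    simp
  have htop : rkFun (⊤ : Submodule F (Sp F)) = 2 :=
    rkFun_not_small (fun hs => plX_not_small (hs.mono le_top))
  -- `u` and `w` are independent
  have hind : ∀ s t : K, s • u + t • w = 0 → s = 0 ∧ t = 0 := by
    intro s t hst
    have ht : t = 0 := by
      by_contra ht
      have hwu : w = (-(t⁻¹ * s)) • u := by
        have h1 : t • w = -(s • u) := by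
          rw [eq_neg_iff_add_eq_zero, add_comm]; exact hst
        calc w = t⁻¹ • (t • w) := by rw [smul_smul, inv_mul_cancel₀ ht, one_smul]
          _ = (-(t⁻¹ * s)) • u := by rw [h1]; module
      have hle : Submodule.span K (φ '' ((⊤ : Submodule F (Sp F)) : Set (Sp F))) ≤
          Submodule.span K {u} := by
        rw [Submodule.span_le]
        rintro _ ⟨⟨x, y⟩, -, rfl⟩
        rw [hsplit, hwu]
        apply Submodule.mem_span_singleton.2
        exact ⟨a x + b y * (-(t⁻¹ * s)), by module⟩
      have h2 := Submodule.finrank_mono hle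
      rw [← h', htop, finrank_span_singleton hu0] at h2
      omega
    subst ht
    rw [zero_smul, add_zero, smul_eq_zero] at hst
    exact ⟨hst.resolve_right hu0, rfl⟩
  have hpair : ∀ s t s' t' : K, s • u + t • w = s' • u + t' • w → s = s' ∧ t = t' := by
    intro s t s' t' hh
    have h1 := hind (s - s') (t - t') (by
      have : (s - s') • u + (t - t') • w = (s • u + t • w) - (s' • u + t' • w) := by module
      rw [this, hh, sub_self])
    exact ⟨sub_eq_zero.1 h1.1, sub_eq_zero.1 h1.2⟩
  have ha0 : a x0 = 1 := by
    have := hpair (a x0) 0 1 0 (by rw [zero_smul, add_zero, ← ha, one_smul, add_zero])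
    exact this.1
  have hb0 : b x0 = 1 := by
    have := hpair 0 (b x0) 0 1 (by rw [zero_smul, zero_add, ← hb, one_smul, zero_add])
    exact this.2
  -- the plane `{(x, x)}`
  have hab : ∀ x, b x = a x := by
    intro x
    obtain ⟨c, hc⟩ := hcol 2 (x0, x0) (x, x) ((mem_pl2 _).2 rfl) ((mem_pl2 _).2 rfl)
      (fun h0 => hx0 (congrArg Prod.fst h0))
    rw [hsplit, hsplit, ha0, hb0] at hc
    have := hpair (a x) (b x) c c (by rw [hc]; module)
    rw [this.1, this.2]
  -- the plane `{(x, T x)}`
  have hT : ∀ x, a (T F x) = a x * a (T F x0) := by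
    intro x
    obtain ⟨c, hc⟩ := hcol 3 (x0, T F x0) (x, T F x) ((mem_pl3 _).2 rfl) ((mem_pl3 _).2 rfl)
      (fun h0 => hx0 (congrArg Prod.fst h0))
    rw [hsplit, hsplit, ha0, hab, hab] at hc
    have := hpair (a x) (a (T F x)) c (c * a (T F x0)) (by rw [hc]; module)
    rw [this.1]
    exact this.2
  -- the plane `{(x, x + T x)}` would have rank at most one
  have hle : Submodule.span K (φ '' (plX F : Set (Sp F))) ≤
      Submodule.span K {u + (1 + a (T F x0)) • w} := by
    rw [Submodule.span_le]
    rintro _ ⟨⟨x, y⟩, hxy, rfl⟩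
    have hy : y = x + T F x := (mem_plX _).1 hxy
    subst hy
    have h1 : φ (x, x + T F x) = φ (x, x) + φ (0, T F x) := by
      rw [← hadd]; simp
    rw [h1, hsplit, hb (T F x), hab, hab, hT x]
    apply Submodule.mem_span_singleton.2
    exact ⟨a x, by module⟩
  have h3 := Submodule.finrank_mono hle
  rw [← h', rkFun_not_small plX_not_small] at h3
  have h4 := finrank_span_le_card (R := K) ({u + (1 + a (T F x0)) • w} : Set (Fin k → K))
  simp at h4
  omega

end nonrep

end example_

/-- For every finite field `F` there is a `q`-matroid `M` on a four-dimensional `F`-space such that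
the projectivization matroid of `M` is representable over every extension field `K` of `F` of
degree at least four, but `M` is not representable over any extension field of `F`. -/
theorem result (F : Type u) [Field F] [Finite F] :
    ∃ M : QMatroid F ((Fin 2 → F) × (Fin 2 → F)),
      (∀ (K : Type u) [Field K] [Algebra F K], 4 ≤ finrank F K → M.ProjRepresentable K) ∧
      (∀ (K : Type u) [Field K] [Algebra F K], ¬ M.Representable K) := by
  refine ⟨exM, ?_, ?_⟩
  · intro K _ _ hK
    have hfin : FiniteDimensional F K := FiniteDimensional.of_finrank_pos (by omega)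
    obtain ⟨f, hf⟩ : ∃ f : Sp F →ₗ[F] K, Function.Injective f := by
      have h1 : finrank F (Sp F) ≤ finrank F K := by
        have : finrank F (Sp F) = 4 := by simp
        omega
      exact (finrank_le_iff_exists_linearMap).1 h1
    exact projRep K (fun x => f x.rep) (fun x y hxy => by
      have h1 : x.rep = y.rep := hf hxy
      rw [← x.mk_rep, ← y.mk_rep]
      simp only [h1])
  · intro K _ _
    exact notRep K

end Pool.Agent.Results.MP_4d2e3d_co.NotDetermined
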